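import Mathlib
import Pool.Agent.Y802.TS.Stm

/-! Project TS: Kolchin over Noetherian rings. -/

set_option autoImplicit false

namespace Pool.Agent.Y38.TS

open Matrix

theorem one_block (h : Pool.Agent.Y802.TS.S_KOL) (A : Type) [CommRing A] (G : Type) [Group G]
    (n : ℕ) (ρ : G →* GL (Fin n) A)
    (hρ : ∀ g, ∃ r : ℕ, ∀ a b, IsNilpotent ((((ρ g : Matrix (Fin n) (Fin n) A) - 1) ^ r) a b))
    (g : Fin n → G) (a b : Fin n) :
    (List.ofFn fun i => (ρ (g i) : Matrix (Fin n) (Fin n) A) - 1).prod a b ∈ nilradical A := by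
  rw [nilradical_eq_sInf, Submodule.mem_sInf]
  intro P hP
  rw [Set.mem_ofPred_eq] at hP
  have : Ideal.IsPrime P := hP
  obtain ⟨φ, hφ, hker⟩ : ∃ φ : A →+* FractionRing (A ⧸ P),
      φ = (algebraMap (A ⧸ P) (FractionRing (A ⧸ P))).comp (Ideal.Quotient.mk P) ∧
      ∀ x, φ x = 0 → x ∈ P := by
    refine ⟨_, rfl, fun x hx => ?_⟩
    rw [RingHom.comp_apply] at hx
    have h1 := (IsFractionRing.injective (A ⧸ P) (FractionRing (A ⧸ P)))
      (hx.trans (map_zero _).symm)
    exact Ideal.Quotient.eq_zero_iff_mem.1 h1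
  have hent : ∀ g : G, ((((Matrix.GeneralLinearGroup.map φ).comp ρ) g :
      GL (Fin n) (FractionRing (A ⧸ P))) : Matrix (Fin n) (Fin n) (FractionRing (A ⧸ P))) - 1 =
      φ.mapMatrix ((ρ g : Matrix (Fin n) (Fin n) A) - 1) := by
    intro g
    rw [map_sub, map_one]
    rfl
  have key := h (FractionRing (A ⧸ P)) G n ((Matrix.GeneralLinearGroup.map φ).comp ρ) (by
    intro g
    obtain ⟨r, hr⟩ := hρ g
    refine ⟨r, ?_⟩
    rw [hent, ← map_pow]
    ext i j
    show φ _ = 0
    exact ((hr i j).map φ).eq_zero) g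
  simp only [hent] at key
  have e : (List.ofFn fun i => φ.mapMatrix ((ρ (g i) : Matrix (Fin n) (Fin n) A) - 1)).prod =
      φ.mapMatrix (List.ofFn fun i => (ρ (g i) : Matrix (Fin n) (Fin n) A) - 1).prod := by
    rw [map_list_prod, List.map_ofFn]
    rfl
  rw [e] at key
  apply hker
  have h2 := congrFun (congrFun key a) b
  exact h2

theorem t_NIL : Pool.Agent.Y802.TS.S_KOL → Pool.Agent.Y802.TS.S_NIL := by
  intro h A _ _ G _ n ρ hρ
  obtain ⟨c, hc⟩ := IsNoetherianRing.isNilpotent_nilradical A
  have hl : ∀ (e : ℕ) (l : List G), l.length = n * e → ∀ a b,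
      (l.map fun g => (ρ g : Matrix (Fin n) (Fin n) A) - 1).prod a b ∈ nilradical A ^ e := by
    intro e
    induction e with
    | zero =>
      intro l _ a b
      rw [pow_zero, Ideal.one_eq_top]
      exact Submodule.mem_top
    | succ e ih =>
      intro l hl a b
      have h1 : (l.take n).length = n := by
        rw [List.length_take, hl]
        exact min_eq_left (by rw [mul_add, mul_one]; omega)
      have h2 : (l.drop n).length = n * e := by
        rw [List.length_drop, hl, mul_add, mul_one]
        omega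
      have h3 : ∀ a b, ((l.take n).map fun g => (ρ g : Matrix (Fin n) (Fin n) A) - 1).prod a b ∈
          nilradical A := by
        intro a b
        have h4 := one_block h A G n ρ hρ (fun i => (l.take n)[(i : ℕ)]'(by
          rw [h1]; exact i.isLt)) a b
        have h5 : (l.take n).map (fun g => (ρ g : Matrix (Fin n) (Fin n) A) - 1) =
            List.ofFn (fun i : Fin n => (ρ ((l.take n)[(i : ℕ)]'(by rw [h1]; exact i.isLt)) :
              Matrix (Fin n) (Fin n) A) - 1) := by
          apply List.ext_getElem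
          · rw [List.length_map, List.length_ofFn, h1]
          · intro i i1 i2
            rw [List.getElem_map, List.getElem_ofFn]
        rw [h5]
        exact h4
      rw [← List.take_append_drop n l, List.map_append, List.prod_append, Matrix.mul_apply,
        pow_succ']
      exact Submodule.sum_mem _ fun j _ => Ideal.mul_mem_mul (h3 a j) (ih _ h2 j b)
  refine ⟨n * c, fun g => ?_⟩
  have e : (List.ofFn fun i => (ρ (g i) : Matrix (Fin n) (Fin n) A) - 1) =
      (List.ofFn g).map (fun g => (ρ g : Matrix (Fin n) (Fin n) A) - 1) := by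
    rw [List.map_ofFn]
    rfl
  rw [e]
  ext a b
  have h1 := hl c (List.ofFn g) (List.length_ofFn) a b
  rw [hc] at h1
  simpa using h1

end Pool.Agent.Y38.TS
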